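import Pool.Agent.H30.BV.Targets

/-! # Brun-Hooley sieve, upper bound -/

set_option autoImplicit false

open Finset Real ArithmeticFunction
open scoped Nat

namespace Pool.Agent.H24.BV

open Pool.Agent.H30.BV

open Classical in
theorem bu (hPW : T_PW) (hXP : T_XP) (hYV : T_YV) (hES : T_ES) : T_BU := by
  intro Ω P w dv lev b t g Z hw hZ hg hlev
  let c : ℕ → ℕ → ℝ := fun j k => if k ≤ 2 * b j then (-1 : ℝ) ^ k else 0
  have hc1 : ∀ j k, |c j k| ≤ 1 := by
    intro j k
    simp only [c]
    split_ifs with h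
    · rw [abs_pow]
      simp
    · simp
  have hc2 : ∀ j k, 2 * b j + 1 < k → c j k = 0 := by
    intro j k h
    simp only [c]
    rw [if_neg (by omega)]
  have hX := hXP Ω P w dv lev b t g Z c hc1 hc2 hlev
  have h1 : Sf Ω w dv P ≤ ∑ n ∈ Ω, w n * ∏ j ∈ range t,
      ∑ s ∈ (P.filter (fun p => lev p = j ∧ dv p n)).powerset, c j s.card := by
    unfold Sf
    rw [Finset.sum_filter]
    refine Finset.sum_le_sum fun n hn => ?_
    have h2 : (if ∀ p ∈ P, ¬ dv p n then w n else 0) ≤ w n * ∏ j ∈ range t,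
        (if P.filter (fun p => lev p = j ∧ dv p n) = ∅ then (1 : ℝ) else 0) := by
      split_ifs with h
      · have h3 : ∏ j ∈ range t,
            (if P.filter (fun p => lev p = j ∧ dv p n) = ∅ then (1 : ℝ) else 0) = 1 := by
          refine Finset.prod_eq_one fun j _ => ?_
          rw [if_pos]
          rw [Finset.filter_eq_empty_iff]
          intro p hp h4
          exact h p hp h4.2
        rw [h3, mul_one]
      · refine mul_nonneg (hw n hn) (Finset.prod_nonneg fun j _ => ?_)
        split_ifs <;> norm_num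
    refine h2.trans (mul_le_mul_of_nonneg_left ?_ (hw n hn))
    refine Finset.prod_le_prod (fun j _ => ?_) fun j _ => ?_
    · split_ifs <;> norm_num
    · exact (hPW (P.filter (fun p => lev p = j ∧ dv p n)) (b j)).1
  have h2 := (abs_le.1 hX).2
  have hgj : ∀ j, ∀ p ∈ P.filter (fun p => lev p = j), 0 ≤ g p ∧ g p < 1 := fun j p hp =>
    hg p (Finset.mem_filter.1 hp).1
  have hY : ∀ j ∈ range t, ∑ s ∈ (P.filter (fun p => lev p = j)).powerset,
      c j s.card * ∏ p ∈ s, g p ≤
        (∏ p ∈ P.filter (fun p => lev p = j), (1 - g p)) * Real.exp (qj P lev g j (b j)) := by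
    intro j _
    obtain ⟨hV, -, hu⟩ := hYV (P.filter (fun p => lev p = j)) g (b j) (hgj j)
    have hE := hES (P.filter (fun p => lev p = j)) g (2 * b j + 1) fun p hp => (hgj j p hp).1
    have hq : (∏ p ∈ P.filter (fun p => lev p = j), (1 - g p)) * qj P lev g j (b j) =
        (∑ p ∈ P.filter (fun p => lev p = j), g p) ^ (2 * b j + 1) / (2 * b j + 1)! := by
      unfold qj
      field_simp
    have hexp := Real.add_one_le_exp (qj P lev g j (b j))
    calc _ ≤ _ := hu
      _ ≤ (∏ p ∈ P.filter (fun p => lev p = j), (1 - g p)) +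
          (∏ p ∈ P.filter (fun p => lev p = j), (1 - g p)) * qj P lev g j (b j) := by
        rw [hq]
        linarith
      _ = (∏ p ∈ P.filter (fun p => lev p = j), (1 - g p)) * (qj P lev g j (b j) + 1) := by ring
      _ ≤ _ := mul_le_mul_of_nonneg_left hexp hV.le
  have hY0 : ∀ j ∈ range t, 0 ≤ ∑ s ∈ (P.filter (fun p => lev p = j)).powerset,
      c j s.card * ∏ p ∈ s, g p := by
    intro j _
    obtain ⟨hV, hl, -⟩ := hYV (P.filter (fun p => lev p = j)) g (b j) (hgj j)
    exact hV.le.trans hl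
  have hprod := Finset.prod_le_prod hY0 hY
  rw [Finset.prod_mul_distrib, ← Real.exp_sum] at hprod
  have hfib : ∏ j ∈ range t, ∏ p ∈ P.filter (fun p => lev p = j), (1 - g p) =
      ∏ p ∈ P, (1 - g p) :=
    Finset.prod_fiberwise_of_maps_to (fun p hp => Finset.mem_range.2 (hlev p hp)) _
  rw [hfib] at hprod
  have h3 := mul_le_mul_of_nonneg_left hprod hZ
  rw [← mul_assoc] at h3
  linarith

end Pool.Agent.H24.BV
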