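import Pool.Agent.H8.BV.Targets

/-! Row RDP of the board `bv_modules`: radical ideals. -/

set_option autoImplicit false

open MvPolynomial
open Pool.Agent.H12.ZD (pmap)
open Pool.Agent.H18.HIT Pool.Agent.H18.HX Pool.Agent.H18.VZ
open Pool.Agent.H8.BIG (KF line)
open Pool.Agent.H8.BV

namespace Pool.Agent.H24.BV

/-- a squarefree element divides `a` if its irreducible divisors do -/
lemma sqf_dvd {R : Type} [CommRing R] [IsDomain R] [UniqueFactorizationMonoid R] {h a : R}
    (h0 : h ≠ 0) (hs : Squarefree h) (hq : ∀ q, Irreducible q → q ∣ h → q ∣ a) : h ∣ a := by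
  classical
  by_cases ha : a = 0
  · rw [ha]
    exact dvd_zero h
  let _ := UniqueFactorizationMonoid.strongNormalizationMonoid (α := R)
  rw [UniqueFactorizationMonoid.dvd_iff_normalizedFactors_le_normalizedFactors h0 ha,
    Multiset.le_iff_subset ((UniqueFactorizationMonoid.squarefree_iff_nodup_normalizedFactors
      h0).1 hs)]
  intro x hx
  rw [UniqueFactorizationMonoid.mem_normalizedFactors_iff' h0] at hx
  rw [UniqueFactorizationMonoid.mem_normalizedFactors_iff' ha]
  exact ⟨hx.1, hx.2.1, hq x hx.1 hx.2.2⟩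

/-- the one variable form -/
lemma radical_aux {R : Type} [CommRing R] [IsDomain R] [UniqueFactorizationMonoid R]
    {p A B : Polynomial R} {ρ h : R} (hp : p.Monic)
    (hAB : Polynomial.C ρ = A * p + B * Polynomial.derivative p) (h0 : h ≠ 0)
    (hs : Squarefree h) (hq : ∀ q, Irreducible q → q ∣ h → ¬ q ∣ ρ) (c : Polynomial R) (n : ℕ)
    (hc : c ^ (n + 1) ∈ Ideal.span {p, Polynomial.C h}) :
    c ∈ Ideal.span {p, Polynomial.C h} := by
  set I : Ideal (Polynomial R) := Ideal.span {p, Polynomial.C h} with hI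
  have hpI : p ∈ I := Ideal.subset_span (by simp)
  have hhI : Polynomial.C h ∈ I := Ideal.subset_span (by simp)
  have hdiv : c %ₘ p + p * (c /ₘ p) = c := Polynomial.modByMonic_add_div c p
  set d : Polynomial R := c %ₘ p with hd
  have hdc : d - c ∈ I := by
    have : d - c = -(c /ₘ p) * p := by
      linear_combination hdiv
    rw [this]
    exact I.mul_mem_left _ hpI
  have hdn : d ^ (n + 1) ∈ I := by
    have h1 : d ^ (n + 1) - c ^ (n + 1) ∈ I :=
      I.mem_of_dvd (sub_dvd_pow_sub_pow d c (n + 1)) hdc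
    have := I.add_mem h1 hc
    simpa using this
  obtain ⟨u, w, huw⟩ := Ideal.mem_span_pair.1 hdn
  have hdeg : d.degree < p.degree := Polynomial.degree_modByMonic_lt c hp
  have key : ∀ j, h ∣ d.coeff j := by
    intro j
    refine sqf_dvd h0 hs fun q hqi hqh => ?_
    have hqp : Prime q := hqi.prime
    set Q : Ideal R := Ideal.span {q} with hQ
    have hQp : Q.IsPrime := (Ideal.span_singleton_prime hqp.ne_zero).2 hqp
    set φ : R →+* FractionRing (R ⧸ Q) :=
      (algebraMap (R ⧸ Q) (FractionRing (R ⧸ Q))).comp (Ideal.Quotient.mk Q) with hφ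
    have hker : ∀ x, φ x = 0 ↔ q ∣ x := by
      intro x
      rw [hφ, RingHom.comp_apply, IsFractionRing.to_map_eq_zero_iff, Ideal.Quotient.eq_zero_iff_mem,
        hQ, Ideal.mem_span_singleton]
    have hρ : φ ρ ≠ 0 := fun h1 => hq q hqi hqh ((hker ρ).1 h1)
    have hmon : (p.map φ).Monic := hp.map φ
    have hsep : (p.map φ).Separable := by
      rw [Polynomial.separable_def]
      refine ⟨Polynomial.C (φ ρ)⁻¹ * A.map φ, Polynomial.C (φ ρ)⁻¹ * B.map φ, ?_⟩
      have h1 : Polynomial.C (φ ρ) = A.map φ * p.map φ +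
          B.map φ * Polynomial.derivative (p.map φ) := by
        rw [Polynomial.derivative_map, ← Polynomial.map_mul, ← Polynomial.map_mul,
          ← Polynomial.map_add, ← hAB, Polynomial.map_C]
      calc _ = Polynomial.C (φ ρ)⁻¹ * (A.map φ * p.map φ +
            B.map φ * Polynomial.derivative (p.map φ)) := by ring
        _ = 1 := by
          rw [← h1, ← Polynomial.C_mul, inv_mul_cancel₀ hρ, Polynomial.C_1]
    have hdvd : p.map φ ∣ (d.map φ) ^ (n + 1) := by
      rw [← Polynomial.map_pow, ← huw, Polynomial.map_add, Polynomial.map_mul,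
        Polynomial.map_mul, Polynomial.map_C, (hker h).2 hqh, Polynomial.C_0, mul_zero, add_zero]
      exact dvd_mul_left _ _
    have hdvd' : p.map φ ∣ d.map φ :=
      (hsep.squarefree.dvd_pow_iff_dvd (Nat.succ_ne_zero n)).1 hdvd
    have hz : d.map φ = 0 := by
      refine Polynomial.eq_zero_of_dvd_of_degree_lt hdvd' ?_
      rw [hp.degree_map φ]
      exact lt_of_le_of_lt Polynomial.degree_map_le hdeg
    rw [← hker, ← Polynomial.coeff_map, hz, Polynomial.coeff_zero]
  have hdI : d ∈ I := by
    have h1 : Polynomial.C h ∣ d := Polynomial.C_dvd_iff_dvd_coeff _ _ |>.2 key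
    exact I.mem_of_dvd h1 hhI
  have := I.sub_mem hdI hdc
  simpa using this

theorem fse_pd {N : ℕ} {k : Type} [CommRing k] (q : Po (N + 1) k) :
    finSuccEquiv k N (pderiv 0 q) = Polynomial.derivative (finSuccEquiv k N q) := by
  induction q using MvPolynomial.induction_on with
  | C c =>
    rw [pderiv_C, map_zero, finSuccEquiv_apply, eval₂Hom_C, RingHom.comp_apply,
      Polynomial.derivative_C]
  | add p q hp hq => rw [map_add, map_add, hp, hq, map_add, Polynomial.derivative_add]
  | mul_X p i hp =>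
    rw [pderiv_mul, map_add, map_mul, map_mul, hp, map_mul, Polynomial.derivative_mul]
    congr 2
    refine Fin.cases ?_ (fun j => ?_) i
    · rw [pderiv_X_self, map_one, finSuccEquiv_X_zero, Polynomial.derivative_X]
    · rw [pderiv_X_of_ne (Fin.succ_ne_zero j), map_zero, finSuccEquiv_X_succ,
        Polynomial.derivative_C]

theorem fse_up {N : ℕ} {k : Type} [Field k] (q : Po N k) :
    finSuccEquiv k N (up q) = Polynomial.C q := by
  unfold up
  induction q using MvPolynomial.induction_on with
  | C c =>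
    rw [rename_C, finSuccEquiv_apply, eval₂Hom_C, RingHom.comp_apply]
  | add p q hp hq => rw [map_add, map_add, hp, hq, Polynomial.C_add]
  | mul_X p i hp =>
    rw [map_mul, map_mul, hp, rename_X, finSuccEquiv_X_succ, Polynomial.C_mul]

theorem pf_RDP : T_RDP := by
  intro N r k _ P ρ h A B hP hAB h0 hs hq
  set e := finSuccEquiv k N with he
  have hAB' : Polynomial.C ρ = e A * e P + e B * Polynomial.derivative (e P) := by
    have h1 := congrArg e hAB
    rw [map_add, map_mul, map_mul, he, fse_up, fse_pd] at h1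
    exact h1
  have hmem : ∀ x, x ∈ Ideal.span {P, up h} ↔ e x ∈ Ideal.span {e P, Polynomial.C h} := by
    intro x
    rw [Ideal.mem_span_pair, Ideal.mem_span_pair]
    constructor
    · rintro ⟨a, b, hab⟩
      refine ⟨e a, e b, ?_⟩
      rw [← hab, map_add, map_mul, map_mul, he, fse_up]
    · rintro ⟨a, b, hab⟩
      refine ⟨e.symm a, e.symm b, ?_⟩
      apply e.injective
      rw [map_add, map_mul, map_mul, AlgEquiv.apply_symm_apply, AlgEquiv.apply_symm_apply, ← hab]
      rw [he, fse_up]
  intro x hx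
  obtain ⟨n, hn⟩ := hx
  have hn' : x ^ (n + 1) ∈ Ideal.span {P, up h} := by
    rw [pow_succ]
    exact Ideal.mul_mem_right _ _ hn
  rw [hmem] at hn' ⊢
  rw [map_pow] at hn'
  exact radical_aux hP.mon hAB' h0 hs hq (e x) n hn'

end Pool.Agent.H24.BV
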